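import Mathlib

/-! Linear programming duality for fractional covers and packings of a finite hypergraph,
from the minimax theorem. -/

namespace Pool.Agent.H76.FC

open Finset

variable {V : Type*} [Fintype V] [DecidableEq V]

/-- the payoff -/
noncomputable def pay (𝒜 : Finset (Finset V)) (p : 𝒜 → ℝ) (q : V → ℝ) : ℝ :=
  ∑ A : 𝒜, p A * ∑ x ∈ (A : Finset V), q x

lemma pay_eq (𝒜 : Finset (Finset V)) (p : 𝒜 → ℝ) (q : V → ℝ) :
    pay 𝒜 p q = ∑ x : V, (∑ A : 𝒜, if x ∈ (A : Finset V) then p A else 0) * q x := by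
  unfold pay
  simp_rw [sum_mul]
  rw [sum_comm]
  refine sum_congr rfl fun A _ => ?_
  rw [mul_sum, ← sum_filter_add_sum_filter_not univ (fun x => x ∈ (A : Finset V))]
  have h1 : ∑ x ∈ univ.filter (fun x => x ∉ (A : Finset V)),
      (if x ∈ (A : Finset V) then p A else 0) * q x = 0 := by
    refine sum_eq_zero fun x hx => ?_
    rw [if_neg (mem_filter.1 hx).2, zero_mul]
  rw [h1, add_zero]
  have h2 : univ.filter (fun x => x ∈ (A : Finset V)) = (A : Finset V) := by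
    ext x; simp
  rw [h2]
  refine sum_congr rfl fun x hx => ?_
  rw [if_pos hx]

omit [Fintype V] [DecidableEq V] in
lemma pay_add_left (𝒜 : Finset (Finset V)) (p p' : 𝒜 → ℝ) (q : V → ℝ) :
    pay 𝒜 (p + p') q = pay 𝒜 p q + pay 𝒜 p' q := by
  simp [pay, add_mul, sum_add_distrib]

omit [Fintype V] [DecidableEq V] in
lemma pay_smul_left (𝒜 : Finset (Finset V)) (t : ℝ) (p : 𝒜 → ℝ) (q : V → ℝ) :
    pay 𝒜 (t • p) q = t * pay 𝒜 p q := by
  simp [pay, mul_sum, mul_assoc]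

omit [Fintype V] [DecidableEq V] in
lemma pay_add_right (𝒜 : Finset (Finset V)) (p : 𝒜 → ℝ) (q q' : V → ℝ) :
    pay 𝒜 p (q + q') = pay 𝒜 p q + pay 𝒜 p q' := by
  simp [pay, mul_add, sum_add_distrib]

omit [Fintype V] [DecidableEq V] in
lemma pay_smul_right (𝒜 : Finset (Finset V)) (t : ℝ) (p : 𝒜 → ℝ) (q : V → ℝ) :
    pay 𝒜 p (t • q) = t * pay 𝒜 p q := by
  simp only [pay, Pi.smul_apply, smul_eq_mul, ← mul_sum]
  rw [mul_sum]
  exact sum_congr rfl fun A _ => by ring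

/-- strong duality -/
theorem exists_dual (𝒜 : Finset (Finset V)) (hne : ∀ A ∈ 𝒜, A.Nonempty) :
    ∃ (c : Finset V → ℝ) (y : V → ℝ), (∀ A, 0 ≤ c A) ∧ (∀ x, 0 ≤ y x) ∧
      (∀ A ∈ 𝒜, 1 ≤ ∑ x ∈ A, y x) ∧
      (∀ x, ∑ A ∈ 𝒜.filter (fun A => x ∈ A), c A ≤ 1) ∧
      ∑ A ∈ 𝒜, c A = ∑ x, y x := by
  classical
  rcases 𝒜.eq_empty_or_nonempty with rfl | ⟨A0, hA0⟩
  · exact ⟨fun _ => 0, fun _ => 0, by simp, by simp, by simp, by simp, by simp⟩
  obtain ⟨x0, hx0⟩ := hne A0 hA0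
  have : Nonempty V := ⟨x0⟩
  have : Nonempty 𝒜 := ⟨⟨A0, hA0⟩⟩
  have hcont1 : ∀ q : V → ℝ, Continuous fun p : 𝒜 → ℝ => pay 𝒜 p q := by
    intro q
    unfold pay
    fun_prop
  have hcont2 : ∀ p : 𝒜 → ℝ, Continuous fun q : V → ℝ => pay 𝒜 p q := by
    intro p
    unfold pay
    fun_prop
  obtain ⟨a, ha, b, hb, hab⟩ := Sion.exists_isSaddlePointOn
    (X := stdSimplex ℝ 𝒜) (Y := stdSimplex ℝ V) (f := pay 𝒜)
    ⟨_, single_mem_stdSimplex ℝ (⟨A0, hA0⟩ : 𝒜)⟩ (convex_stdSimplex ℝ _)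
    (isCompact_stdSimplex ℝ 𝒜)
    (fun q _ => (hcont1 q).lowerSemicontinuous.lowerSemicontinuousOn _)
    (fun q _ => by
      apply ConvexOn.quasiconvexOn
      refine ⟨convex_stdSimplex ℝ _, fun p _ p' _ s t _ _ _ => ?_⟩
      simp only [pay_add_left, pay_smul_left, smul_eq_mul]
      exact le_rfl)
    (convex_stdSimplex ℝ _) ⟨_, single_mem_stdSimplex ℝ x0⟩ (isCompact_stdSimplex ℝ V)
    (fun p _ => (hcont2 p).upperSemicontinuous.upperSemicontinuousOn _)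
    (fun p _ => by
      apply ConcaveOn.quasiconcaveOn
      refine ⟨convex_stdSimplex ℝ _, fun q _ q' _ s t _ _ _ => ?_⟩
      simp only [pay_add_right, pay_smul_right, smul_eq_mul]
      exact le_rfl)
  have hval1 : ∀ q ∈ stdSimplex ℝ V, pay 𝒜 a q ≤ pay 𝒜 a b := fun q hq => hab a ha q hq
  have hval2 : ∀ p ∈ stdSimplex ℝ 𝒜, pay 𝒜 a b ≤ pay 𝒜 p b := fun p hp => hab p hp b hb
  set val := pay 𝒜 a b with hvaldef
  obtain ⟨ha0, ha1⟩ := ha
  obtain ⟨hb0, hb1⟩ := hb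
  -- packing inequality
  have hp1 : ∀ x : V, (∑ A : 𝒜, if x ∈ (A : Finset V) then a A else 0) ≤ val := by
    intro x
    have h := hval1 _ (single_mem_stdSimplex ℝ x)
    rw [pay_eq] at h
    simpa [Pi.single_apply] using h
  have hq1 : ∀ A : 𝒜, val ≤ ∑ x ∈ (A : Finset V), b x := by
    intro A
    have h := hval2 _ (single_mem_stdSimplex ℝ A)
    unfold pay at h
    simpa [Pi.single_apply] using h
  have hvpos : 0 < val := by
    have hex : ∃ A : 𝒜, 0 < a A := by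
      by_contra hcon
      push Not at hcon
      have : ∑ A, a A ≤ 0 := sum_nonpos fun A _ => hcon A
      linarith
    obtain ⟨A, hA⟩ := hex
    obtain ⟨x, hx⟩ := hne A A.2
    calc 0 < a A := hA
      _ = (if x ∈ (A : Finset V) then a A else 0) := by rw [if_pos hx]
      _ ≤ ∑ A : 𝒜, if x ∈ (A : Finset V) then a A else 0 := by
          refine single_le_sum (f := fun A : 𝒜 => if x ∈ (A : Finset V) then a A else 0)
            (fun B _ => ?_) (mem_univ A)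
          split_ifs
          · exact ha0 B
          · exact le_rfl
      _ ≤ val := hp1 x
  refine ⟨fun A => if h : A ∈ 𝒜 then a ⟨A, h⟩ / val else 0, fun x => b x / val, ?_, ?_, ?_, ?_, ?_⟩
  · intro A
    simp only
    split_ifs with h
    · exact div_nonneg (ha0 _) hvpos.le
    · exact le_rfl
  · intro x
    exact div_nonneg (hb0 x) hvpos.le
  · intro A hA
    rw [← sum_div, le_div_iff₀ hvpos, one_mul]
    exact hq1 ⟨A, hA⟩
  · intro x
    have h1 : ∑ A ∈ 𝒜.filter (fun A => x ∈ A), (if h : A ∈ 𝒜 then a ⟨A, h⟩ / val else 0) =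
        ∑ A : 𝒜, (if x ∈ (A : Finset V) then a A else 0) / val := by
      rw [sum_filter, ← sum_coe_sort 𝒜]
      refine sum_congr rfl fun A _ => ?_
      by_cases hx : x ∈ (A : Finset V)
      · simp [hx]
      · simp [hx]
    rw [h1, ← sum_div, div_le_one hvpos]
    exact hp1 x
  · have h1 : ∑ A ∈ 𝒜, (if h : A ∈ 𝒜 then a ⟨A, h⟩ / val else 0) = ∑ A : 𝒜, a A / val := by
      rw [← sum_coe_sort 𝒜]
      refine sum_congr rfl fun A _ => ?_
      simp
    rw [h1, ← sum_div, ← sum_div, ha1, hb1]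

end Pool.Agent.H76.FC
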