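import Mathlib

/-!
Fractional Chung theorem: the hazards of the stage cuts and the survival inequality.
-/

set_option autoImplicit false

open Finset

namespace Pool.Agent.H76.FC

lemma amgm (N : ℕ) (A : ℝ) (hA : 0 ≤ A) :
    A ^ N ≤ ((N * A + 2) / (N + 2)) ^ (N + 2) := by
  have hN : (0 : ℝ) < (N : ℝ) + 2 := by positivity
  have h := Real.geom_mean_le_arith_mean2_weighted (w₁ := (N : ℝ) / (N + 2))
    (w₂ := 2 / ((N : ℝ) + 2)) (p₁ := A) (p₂ := 1) (by positivity) (by positivity) hA zero_le_one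
    (by field_simp)
  rw [Real.one_rpow, mul_one, mul_one] at h
  have h2 : (N : ℝ) / (N + 2) * A + 2 / (N + 2) = (N * A + 2) / (N + 2) := by field_simp
  rw [h2] at h
  have h3 : (A ^ ((N : ℝ) / (N + 2))) ^ (N + 2) = A ^ N := by
    rw [← Real.rpow_natCast, ← Real.rpow_mul hA]
    have : (N : ℝ) / (N + 2) * ((N + 2 : ℕ) : ℝ) = (N : ℝ) := by
      push_cast
      field_simp
    rw [this, Real.rpow_natCast]
  rw [← h3]
  exact pow_le_pow_left₀ (Real.rpow_nonneg hA _) h _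

lemma step_ineq (N : ℕ) (hN : 1 ≤ N) (t : ℝ) (ht : 0 ≤ t) :
    ((N : ℝ) / (N + 1)) * (((N : ℝ) ^ 2 + t) / (N * (N + 1))) ^ N ≤
      ((((N : ℝ) + 1) ^ 2 + t) / ((N + 1) * (N + 2))) ^ (N + 2) := by
  have hN' : (1 : ℝ) ≤ N := by exact_mod_cast hN
  have h0 : (0 : ℝ) < N := by linarith
  set A : ℝ := ((N : ℝ) ^ 2 + t) / (N * (N + 1 / 2)) with hA
  have hA0 : 0 ≤ A := by positivity
  have h1 := amgm N A hA0
  have h2 : ((N : ℝ) * A + 2) / (N + 2) = (((N : ℝ) + 1) ^ 2 + t) / ((N + 1 / 2) * (N + 2)) := by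
    rw [hA]
    field_simp
    ring
  rw [h2] at h1
  have h3 : (((N : ℝ) ^ 2 + t) / (N * (N + 1))) ^ N =
      (((N : ℝ) + 1 / 2) / (N + 1)) ^ N * A ^ N := by
    rw [← mul_pow]
    congr 1
    rw [hA]
    field_simp
  have h4 : ((((N : ℝ) + 1) ^ 2 + t) / ((N + 1) * (N + 2))) ^ (N + 2) =
      (((N : ℝ) + 1 / 2) / (N + 1)) ^ N * (((N : ℝ) + 1 / 2) / (N + 1)) ^ 2 *
        ((((N : ℝ) + 1) ^ 2 + t) / ((N + 1 / 2) * (N + 2))) ^ (N + 2) := by
    rw [← pow_add, ← mul_pow]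
    congr 1
    field_simp
  rw [h3, h4]
  have h5 : (N : ℝ) / (N + 1) ≤ (((N : ℝ) + 1 / 2) / (N + 1)) ^ 2 := by
    rw [div_pow, div_le_div_iff₀ (by positivity) (by positivity)]
    nlinarith
  have h6 : (0 : ℝ) ≤ (((N : ℝ) + 1 / 2) / (N + 1)) ^ N := by positivity
  calc (N : ℝ) / (N + 1) * ((((N : ℝ) + 1 / 2) / (N + 1)) ^ N * A ^ N)
      = (((N : ℝ) + 1 / 2) / (N + 1)) ^ N * ((N : ℝ) / (N + 1) * A ^ N) := by ring
    _ ≤ (((N : ℝ) + 1 / 2) / (N + 1)) ^ N * ((((N : ℝ) + 1 / 2) / (N + 1)) ^ 2 *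
        ((((N : ℝ) + 1) ^ 2 + t) / ((N + 1 / 2) * (N + 2))) ^ (N + 2)) := by
        apply mul_le_mul_of_nonneg_left _ h6
        exact mul_le_mul h5 h1 (by positivity) (by positivity)
    _ = _ := by ring

/-- the product inequality -/
lemma prod_ineq (M N : ℕ) (hM : 1 ≤ M) (hMN : M ≤ N) (t : ℝ) (ht : 0 ≤ t) (htM : t ≤ M) :
    t / N ≤ (∏ τ ∈ Ico M N, (((τ : ℝ) ^ 2 + t) / (τ * (τ + 1)))) *
      (((N : ℝ) ^ 2 + t) / (N * (N + 1))) ^ (N + 1) := by
  induction N, hMN using Nat.le_induction with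
  | base =>
    have hM' : (1 : ℝ) ≤ M := by exact_mod_cast hM
    have h0 : (0 : ℝ) < M := by linarith
    simp only [Ico_self, prod_empty, one_mul]
    have hz : (-2 : ℝ) ≤ (t - M) / (M * (M + 1)) := by
      rw [le_div_iff₀ (by positivity)]
      nlinarith
    have h := one_add_mul_le_pow hz (M + 1)
    have h1 : (1 : ℝ) + ((M + 1 : ℕ) : ℝ) * ((t - M) / (M * (M + 1))) = t / M := by
      push_cast
      field_simp
      ring
    have h2 : (1 : ℝ) + (t - M) / (M * (M + 1)) = ((M : ℝ) ^ 2 + t) / (M * (M + 1)) := by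
      field_simp
      ring
    rw [h1, h2] at h
    exact h
  | succ N hMN ih =>
    have hN : 1 ≤ N := le_trans hM hMN
    have hN' : (1 : ℝ) ≤ N := by exact_mod_cast hN
    have h0 : (0 : ℝ) < N := by linarith
    rw [prod_Ico_succ_top hMN]
    set QQ := ∏ τ ∈ Ico M N, (((τ : ℝ) ^ 2 + t) / (τ * (τ + 1))) with hQ
    have hQ0 : 0 ≤ QQ := prod_nonneg fun τ _ => by positivity
    set B := ((N : ℝ) ^ 2 + t) / (N * (N + 1)) with hB
    have hB0 : 0 ≤ B := by positivity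
    have hs := step_ineq N hN t ht
    rw [← hB] at hs
    push_cast
    calc t / ((N : ℝ) + 1) = (N / (N + 1)) * (t / N) := by field_simp
      _ ≤ (N / (N + 1)) * (QQ * B ^ (N + 1)) := by
          apply mul_le_mul_of_nonneg_left ih (by positivity)
      _ = QQ * B * ((N / (N + 1)) * B ^ N) := by ring
      _ ≤ QQ * B * (((((N : ℝ) + 1) ^ 2 + t) / ((N + 1) * (N + 2))) ^ (N + 2)) := by
          apply mul_le_mul_of_nonneg_left hs (by positivity)
      _ = _ := by
          congr 2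
          ring_nf

/-- the hazard at the stage in which geodesics have `j` inner vertices; `a = N + 1` -/
noncomputable def hz (N j : ℕ) (y : ℝ) : ℝ :=
  if 2 * N + 1 ≤ j then y
  else max 0 ((((N : ℝ) + 1) * N * y - (2 * N + 1 - j)) / (((j : ℝ) - N - 1) * (j - N)))

lemma hz_nonneg (N j : ℕ) (y : ℝ) (hy : 0 ≤ y) : 0 ≤ hz N j y := by
  unfold hz
  split_ifs
  · exact hy
  · exact le_max_left _ _

lemma hz_le_one (N j : ℕ) (hj : N + 2 ≤ j) (y : ℝ) (hy : 0 ≤ y) (hy1 : (N + 1) * y ≤ 1) :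
    hz N j y ≤ 1 := by
  unfold hz
  split_ifs with h
  · nlinarith [(Nat.cast_nonneg N : (0 : ℝ) ≤ N)]
  · push_neg at h
    have h1 : (N : ℝ) + 2 ≤ j := by exact_mod_cast hj
    have h2 : (j : ℝ) ≤ 2 * N := by
      have : j ≤ 2 * N := by omega
      exact_mod_cast this
    apply max_le zero_le_one
    have hpos : (0 : ℝ) < ((j : ℝ) - N - 1) * (j - N) := by
      apply mul_pos <;> linarith
    rw [div_le_one hpos]
    have hN0 : (0 : ℝ) ≤ N := Nat.cast_nonneg N
    nlinarith [mul_le_mul_of_nonneg_left hy1 hN0]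

/-- feasibility of the hazards -/
lemma hz_feas (N j : ℕ) (hj : N + 2 ≤ j) (l : List ℝ) (hl : l.length = j)
    (hs : 1 ≤ l.sum) : 1 ≤ (l.map (hz N j)).sum := by
  by_cases h : 2 * N + 1 ≤ j
  · have : l.map (hz N j) = l := by
      conv_rhs => rw [← List.map_id l]
      apply List.map_congr_left
      intro y _
      simp [hz, h]
    rw [this]
    exact hs
  · have h1 : (N : ℝ) + 2 ≤ j := by exact_mod_cast hj
    have hpos : (0 : ℝ) < ((j : ℝ) - N - 1) * (j - N) := by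
      apply mul_pos <;> linarith
    have key : ∀ l : List ℝ, ((((N : ℝ) + 1) * N * l.sum - (2 * N + 1 - j) * l.length) /
        (((j : ℝ) - N - 1) * (j - N))) ≤ (l.map (hz N j)).sum := by
      intro l
      induction l with
      | nil => simp
      | cons y l ih =>
        simp only [List.map_cons, List.sum_cons, List.length_cons]
        have h3 : ((((N : ℝ) + 1) * N * y - (2 * N + 1 - j)) / (((j : ℝ) - N - 1) * (j - N))) ≤
            hz N j y := by
          unfold hz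
          rw [if_neg h]
          exact le_max_right _ _
        have h4 : ((((N : ℝ) + 1) * N * (y + l.sum) - (2 * N + 1 - j) * ((l.length + 1 : ℕ) : ℝ)) /
            (((j : ℝ) - N - 1) * (j - N))) =
            ((((N : ℝ) + 1) * N * y - (2 * N + 1 - j)) / (((j : ℝ) - N - 1) * (j - N))) +
            ((((N : ℝ) + 1) * N * l.sum - (2 * N + 1 - j) * l.length) /
              (((j : ℝ) - N - 1) * (j - N))) := by
          rw [← add_div]
          congr 1
          push_cast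
          ring
        rw [h4]
        exact add_le_add h3 ih
    refine le_trans ?_ (key l)
    rw [hl, le_div_iff₀ hpos]
    have hN0 : (0 : ℝ) ≤ N := Nat.cast_nonneg N
    nlinarith [mul_le_mul_of_nonneg_left hs (by positivity : (0 : ℝ) ≤ ((N : ℝ) + 1) * N)]

/-- survival through the stages `n, ..., d - 1` -/
noncomputable def sv (N d n : ℕ) (y : ℝ) : ℝ := ∏ j ∈ Ico n d, (1 - hz N j y)

lemma sv_nonneg (N d n : ℕ) (hn : N + 2 ≤ n) (y : ℝ) (hy : 0 ≤ y) (hy1 : (N + 1) * y ≤ 1) :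
    0 ≤ sv N d n y :=
  prod_nonneg fun j hj => by
    have := hz_le_one N j (le_trans hn (mem_Ico.1 hj).1) y hy hy1
    linarith

lemma sv_le_one (N d n : ℕ) (hn : N + 2 ≤ n) (y : ℝ) (hy : 0 ≤ y) (hy1 : (N + 1) * y ≤ 1) :
    sv N d n y ≤ 1 :=
  prod_le_one (fun j hj => by
    have := hz_le_one N j (le_trans hn (mem_Ico.1 hj).1) y hy hy1
    linarith) (fun j hj => by
    have := hz_nonneg N j y hy
    linarith)

lemma sv_succ (N d n : ℕ) (hn : n < d) (y : ℝ) :
    sv N d n y = (1 - hz N n y) * sv N d (n + 1) y := by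
  unfold sv
  rw [prod_eq_prod_Ico_succ_bot hn]

lemma sv_self (N d n : ℕ) (hn : d ≤ n) (y : ℝ) : sv N d n y = 1 := by
  unfold sv
  rw [Ico_eq_empty (by omega), prod_empty]

/-- the survival inequality -/
lemma sv_ge (N d : ℕ) (hd : d ≤ 3 * N + 2) (y : ℝ) (hy : 0 ≤ y) (hy1 : (N + 1) * y ≤ 1) :
    1 - (N + 1) * y ≤ sv N d (N + 2) y := by
  -- reduce to `d = 3 N + 2`
  have hred : sv N (3 * N + 2) (N + 2) y ≤ sv N d (N + 2) y := by
    unfold sv
    rcases le_or_gt d (N + 2) with h | h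
    · rw [Ico_eq_empty (by omega : ¬ N + 2 < d), prod_empty]
      exact sv_le_one N (3 * N + 2) (N + 2) le_rfl y hy hy1
    · rw [← prod_Ico_consecutive _ (by omega : N + 2 ≤ d) hd]
      have h1 := sv_nonneg N d (N + 2) le_rfl y hy hy1
      have h2 := sv_le_one N (3 * N + 2) d (by omega) y hy hy1
      unfold sv at h1 h2
      exact mul_le_of_le_one_right h1 h2
  refine le_trans ?_ hred
  rcases Nat.eq_zero_or_pos N with rfl | hN
  · rw [sv_self 0 _ _ (by norm_num)]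
    simp only [Nat.cast_zero]
    linarith
  have hN' : (1 : ℝ) ≤ N := by exact_mod_cast hN
  have hN0 : (0 : ℝ) < N := by linarith
  set t : ℝ := N * (1 - (N + 1) * y) with ht
  have ht0 : 0 ≤ t := mul_nonneg hN0.le (by linarith)
  have htN : t ≤ N := by
    rw [ht]
    nlinarith [mul_nonneg (by linarith : (0 : ℝ) ≤ (N : ℝ) + 1) hy]
  set M : ℕ := max 1 ⌈t⌉₊ with hM
  have hM1 : 1 ≤ M := le_max_left _ _
  have hMN : M ≤ N := max_le hN (Nat.ceil_le.2 htN)
  have htM : t ≤ M := by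
    rw [hM]
    push_cast
    exact le_trans (Nat.le_ceil t) (le_max_right _ _)
  have hprod := prod_ineq M N hM1 hMN t ht0 htM
  have hyt : y = (1 - t / N) / (N + 1) := by
    rw [ht]
    field_simp
    ring
  have h1y : 1 - y = ((N : ℝ) ^ 2 + t) / (N * (N + 1)) := by
    rw [hyt]
    field_simp
    ring
  have hlhs : 1 - (N + 1) * y = t / N := by
    rw [ht]
    field_simp
  rw [hlhs]
  refine le_trans hprod ?_
  unfold sv
  rw [← prod_Ico_consecutive (fun j => 1 - hz N j y) (by omega : N + 2 ≤ 2 * N + 1)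
    (by omega : 2 * N + 1 ≤ 3 * N + 2)]
  have hlate : ∏ j ∈ Ico (2 * N + 1) (3 * N + 2), (1 - hz N j y) =
      (((N : ℝ) ^ 2 + t) / (N * (N + 1))) ^ (N + 1) := by
    rw [← h1y]
    have : ∀ j ∈ Ico (2 * N + 1) (3 * N + 2), 1 - hz N j y = 1 - y := by
      intro j hj
      have := (mem_Ico.1 hj).1
      simp [hz, this]
    rw [prod_congr rfl this, prod_const, Nat.card_Ico]
    congr 1
    omega
  rw [hlate]
  apply mul_le_mul_of_nonneg_right _ (by positivity)
  have hre : ∏ j ∈ Ico (N + 2) (2 * N + 1), (1 - hz N j y) =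
      ∏ τ ∈ Ico 1 N, (1 - hz N (N + 1 + τ) y) := by
    have := Finset.prod_Ico_add (fun j => 1 - hz N j y) 1 N (N + 1)
    rw [this]
    congr 1
    congr 1 <;> omega
  rw [hre, ← prod_Ico_consecutive (fun τ => 1 - hz N (N + 1 + τ) y) hM1 hMN]
  have hfirst : ∏ τ ∈ Ico 1 M, (1 - hz N (N + 1 + τ) y) = 1 := by
    apply prod_eq_one
    intro τ hτ
    obtain ⟨h1, h2⟩ := mem_Ico.1 hτ
    have h3 : τ < ⌈t⌉₊ := by
      rcases lt_max_iff.1 (hM ▸ h2) with h | h
      · omega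
      · exact h
    have h4 : (τ : ℝ) < t := Nat.lt_ceil.1 h3
    have h5 : ¬ (2 * N + 1 ≤ N + 1 + τ) := by omega
    have h6 : (1 : ℝ) ≤ τ := by exact_mod_cast h1
    unfold hz
    rw [if_neg h5]
    have h7 : ((((N : ℝ) + 1) * N * y - (2 * N + 1 - ((N + 1 + τ : ℕ) : ℝ))) /
        ((((N + 1 + τ : ℕ) : ℝ) - N - 1) * (((N + 1 + τ : ℕ) : ℝ) - N))) ≤ 0 := by
      push_cast
      apply div_nonpos_of_nonpos_of_nonneg
      · have : ((N : ℝ) + 1) * N * y = N - t := by rw [ht]; ring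
        rw [this]
        linarith
      · apply mul_nonneg <;> linarith
    rw [max_eq_left h7]
    ring
  rw [hfirst, one_mul]
  apply le_of_eq
  apply prod_congr rfl
  intro τ hτ
  obtain ⟨h1, h2⟩ := mem_Ico.1 hτ
  have h5 : ¬ (2 * N + 1 ≤ N + 1 + τ) := by omega
  have h6 : (1 : ℝ) ≤ τ := by exact_mod_cast le_trans hM1 h1
  have h8 : t ≤ τ := le_trans htM (by exact_mod_cast h1)
  unfold hz
  rw [if_neg h5]
  have h9 : ((N : ℝ) + 1) * N * y = N - t := by rw [ht]; ring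
  have h7 : 0 ≤ ((((N : ℝ) + 1) * N * y - (2 * N + 1 - ((N + 1 + τ : ℕ) : ℝ))) /
      ((((N + 1 + τ : ℕ) : ℝ) - N - 1) * (((N + 1 + τ : ℕ) : ℝ) - N))) := by
    push_cast
    apply div_nonneg
    · rw [h9]
      linarith
    · apply mul_nonneg <;> linarith
  rw [max_eq_right h7, h9]
  push_cast
  have h10 : (N : ℝ) + 1 + τ - N - 1 = τ := by ring
  have h11 : (N : ℝ) + 1 + τ - N = τ + 1 := by ring
  rw [h10, h11]
  have h12 : (0 : ℝ) < τ := by linarith
  field_simp
  ring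

end Pool.Agent.H76.FC
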