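import Mathlib

/-!
Threshold cuts of the geodesics of a graph.
-/

set_option autoImplicit false

open Finset MeasureTheory

namespace Pool.Agent.H76.FC

variable {V : Type*}

/-- weight of a walk, the last vertex not counted -/
def wt {H : SimpleGraph V} (f : V → ℝ) {v x : V} (q : H.Walk v x) : ℝ :=
  ((q.support.dropLast).map f).sum

lemma wt_nonneg {H : SimpleGraph V} {f : V → ℝ} (hf : ∀ x, 0 ≤ f x) {v x : V}
    (q : H.Walk v x) : 0 ≤ wt f q := by
  apply List.sum_nonneg
  intro r hr
  obtain ⟨z, _, rfl⟩ := List.mem_map.1 hr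
  exact hf z

lemma wt_concat {H : SimpleGraph V} (f : V → ℝ) {v x x' : V} (q : H.Walk v x)
    (h : H.Adj x x') : wt f (q.concat h) = wt f q + f x := by
  have h1 : (q.support.map f).sum = ((q.support.dropLast ++ [x]).map f).sum := by
    rw [SimpleGraph.Walk.dropLast_support_concat]
  rw [List.map_append, List.sum_append, List.map_singleton, List.sum_singleton] at h1
  unfold wt
  rw [SimpleGraph.Walk.support_concat, List.dropLast_concat]
  exact h1

lemma wt_add {H : SimpleGraph V} (f : V → ℝ) {v x : V} (q : H.Walk v x) :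
    (q.support.map f).sum = wt f q + f x := by
  have h1 : (q.support.map f).sum = ((q.support.dropLast ++ [x]).map f).sum := by
    rw [SimpleGraph.Walk.dropLast_support_concat]
  rw [List.map_append, List.sum_append, List.map_singleton, List.sum_singleton] at h1
  exact h1

/-- the potential: minimal weight of a shortest walk -/
noncomputable def pot (H : SimpleGraph V) (f : V → ℝ) (v x : V) : ℝ :=
  sInf {r | ∃ q : H.Walk v x, q.length = H.dist v x ∧ wt f q = r}

lemma pot_bdd (H : SimpleGraph V) {f : V → ℝ} (hf : ∀ x, 0 ≤ f x) (v x : V) :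
    BddBelow {r | ∃ q : H.Walk v x, q.length = H.dist v x ∧ wt f q = r} := by
  refine ⟨0, ?_⟩
  rintro r ⟨q, _, rfl⟩
  exact wt_nonneg hf q

lemma pot_self (H : SimpleGraph V) {f : V → ℝ} (hf : ∀ x, 0 ≤ f x) (v : V) :
    pot H f v v ≤ 0 := by
  apply csInf_le (pot_bdd H hf v v)
  exact ⟨SimpleGraph.Walk.nil, by simp, by simp [wt]⟩

lemma pot_succ (H : SimpleGraph V) {f : V → ℝ} (hf : ∀ x, 0 ≤ f x) {v x x' : V}
    (hr : H.Reachable v x) (h : H.Adj x x') (hd : H.dist v x' = H.dist v x + 1) :
    pot H f v x' ≤ pot H f v x + f x := by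
  rw [← sub_le_iff_le_add]
  apply le_csInf
  · obtain ⟨q, hq⟩ := hr.exists_walk_length_eq_dist
    exact ⟨_, q, hq, rfl⟩
  · rintro r ⟨q, hq, rfl⟩
    rw [sub_le_iff_le_add]
    apply csInf_le (pot_bdd H hf v x')
    refine ⟨q.concat h, ?_, wt_concat f q h⟩
    rw [SimpleGraph.Walk.length_concat, hq, hd]

lemma dist_getVert (H : SimpleGraph V) {v w : V} (p : H.Walk v w)
    (hmin : ∀ q : H.Walk v w, p.length ≤ q.length) {i : ℕ} (hi : i ≤ p.length) :
    H.dist v (p.getVert i) = i := by
  apply le_antisymm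
  · have := SimpleGraph.dist_le (p.take i)
    rw [SimpleGraph.Walk.take_length] at this
    omega
  · obtain ⟨q, hq⟩ := (p.take i).reachable.exists_walk_length_eq_dist
    have := hmin (q.append (p.drop i))
    rw [SimpleGraph.Walk.length_append, SimpleGraph.Walk.drop_length, hq] at this
    omega

/-- the threshold set at `θ` -/
noncomputable def thr [Fintype V] (H : SimpleGraph V) (f : V → ℝ) (v : V) (θ : ℝ) : Finset V :=
  open Classical in univ.filter fun x => pot H f v x < θ ∧ θ ≤ pot H f v x + f x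

lemma mem_thr [Fintype V] {H : SimpleGraph V} {f : V → ℝ} {v : V} {θ : ℝ} {x : V} :
    x ∈ thr H f v θ ↔ pot H f v x < θ ∧ θ ≤ pot H f v x + f x := by
  simp [thr]

lemma thr_hits [Fintype V] (H : SimpleGraph V) {f : V → ℝ} (hf : ∀ x, 0 ≤ f x) {v w : V}
    (hw : f w = 0) (L : ℕ) (hmin : ∀ q : H.Walk v w, L ≤ q.length)
    (hcov : ∀ q : H.Walk v w, q.length = L → 1 ≤ (q.support.map f).sum)
    (p : H.Walk v w) (hp : p.length = L) {θ : ℝ} (h0 : 0 < θ) (h1 : θ ≤ 1) :
    ∃ x ∈ thr H f v θ, x ∈ p.support := by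
  classical
  have hmin' : ∀ q : H.Walk v w, p.length ≤ q.length := fun q => hp ▸ hmin q
  have hdist : H.dist v w = L := by
    have := dist_getVert H p hmin' le_rfl
    rw [SimpleGraph.Walk.getVert_length] at this
    rw [this, hp]
  have hend : 1 ≤ pot H f v w := by
    apply le_csInf
    · exact ⟨_, p, by rw [hp, hdist], rfl⟩
    · rintro r ⟨q, hq, rfl⟩
      have h2 := hcov q (by rw [hq, hdist])
      rw [wt_add, hw, add_zero] at h2
      exact h2
  -- the first index at which the potential reaches θ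
  have hex : ∃ i, i ≤ p.length ∧ θ ≤ pot H f v (p.getVert i) :=
    ⟨p.length, le_rfl, by rw [SimpleGraph.Walk.getVert_length]; linarith⟩
  have hspec := Nat.find_spec hex
  set i := Nat.find hex with hi
  have hi0 : i ≠ 0 := by
    intro h
    have h2 := hspec.2
    rw [h, SimpleGraph.Walk.getVert_zero] at h2
    have := pot_self H hf v
    linarith
  obtain ⟨k, hk⟩ := Nat.exists_eq_succ_of_ne_zero hi0
  have hkl : k < p.length := by
    have := hspec.1
    omega
  have hlt : pot H f v (p.getVert k) < θ := by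
    have h2 := Nat.find_min hex (m := k) (by omega)
    by_contra h3
    exact h2 ⟨hkl.le, not_lt.1 h3⟩
  have hs := pot_succ H hf (p.take k).reachable (p.adj_getVert_succ hkl) (by
    rw [dist_getVert H p hmin' hkl.le, dist_getVert H p hmin' hkl])
  refine ⟨p.getVert k, mem_thr.2 ⟨hlt, ?_⟩, p.getVert_mem_support k⟩
  have h2 := hspec.2
  rw [hk] at h2
  exact le_trans h2 hs

lemma exists_thr [Fintype V] (H : SimpleGraph V) {f : V → ℝ} (hf : ∀ x, 0 ≤ f x) (v : V)
    (g : V → ℝ) (hg : ∀ x, 0 ≤ g x) :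
    ∃ θ : ℝ, 0 < θ ∧ θ ≤ 1 ∧ ∑ x ∈ thr H f v θ, g x ≤ ∑ x, f x * g x := by
  classical
  set F : ℝ → ℝ := fun θ => ∑ x, (Set.Ioc (pot H f v x) (pot H f v x + f x)).indicator
    (fun _ => g x) θ with hF
  have hFθ : ∀ θ, F θ = ∑ x ∈ thr H f v θ, g x := by
    intro θ
    simp only [hF, thr, sum_filter, Set.indicator_apply, Set.mem_Ioc]
  have hint : ∀ x : V, IntegrableOn ((Set.Ioc (pot H f v x) (pot H f v x + f x)).indicator
      (fun _ => g x)) (Set.Ioc (0 : ℝ) 1) volume := by
    intro x
    apply IntegrableOn.indicator _ measurableSet_Ioc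
    exact integrableOn_const (by simp)
  have hintF : IntegrableOn F (Set.Ioc (0 : ℝ) 1) volume := by
    rw [hF]
    exact MeasureTheory.integrable_finsetSum _ fun x _ => hint x
  obtain ⟨θ, hθ, hle⟩ := exists_le_setAverage (μ := volume) (s := Set.Ioc (0 : ℝ) 1)
    (by simp) (by simp) hintF
  refine ⟨θ, hθ.1, hθ.2, ?_⟩
  rw [← hFθ]
  refine le_trans hle ?_
  rw [setAverage_eq]
  simp only [Real.volume_real_Ioc, sub_zero, max_eq_left zero_le_one, inv_one, one_smul]
  rw [hF, integral_finsetSum _ fun x _ => hint x]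
  apply sum_le_sum
  intro x _
  rw [setIntegral_indicator measurableSet_Ioc]
  simp only [integral_const, smul_eq_mul, measureReal_restrict_apply_univ]
  have h1 : volume.real (Set.Ioc (0 : ℝ) 1 ∩ Set.Ioc (pot H f v x) (pot H f v x + f x)) ≤ f x := by
    refine le_trans (measureReal_mono Set.inter_subset_right (by simp)) ?_
    rw [Real.volume_real_Ioc]
    simp [hf x]
  exact mul_le_mul_of_nonneg_right h1 (hg x)

end Pool.Agent.H76.FC
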