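import Mathlib
import Pool.Agent.H76.FC.Ineq
import Pool.Agent.H76.FC.Threshold

/-!
Fractional Chung theorem, cover version: a fractional cover `y` of the short paths can be rounded
to a hitting set of size at most `(N + 1) * ∑ y`, where `d ≤ 3 N + 2`.
-/

set_option autoImplicit false

open Finset

namespace Pool.Agent.H76.FC

variable {V : Type*}

/-- delete the vertices of `S` (they become isolated) -/
def del (G : SimpleGraph V) (S : Finset V) : SimpleGraph V where
  Adj x z := G.Adj x z ∧ x ∉ S ∧ z ∉ S
  symm := ⟨fun _ _ h => ⟨h.1.symm, h.2.2, h.2.1⟩⟩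
  loopless := ⟨fun _ h => h.1.ne rfl⟩

lemma del_le (G : SimpleGraph V) (S : Finset V) : del G S ≤ G := fun _ _ h => h.1

lemma del_anti (G : SimpleGraph V) {S T : Finset V} (h : S ⊆ T) : del G T ≤ del G S :=
  fun _ _ hh => ⟨hh.1, fun h1 => hh.2.1 (h h1), fun h1 => hh.2.2 (h h1)⟩

lemma notMem_of_mem_support (G : SimpleGraph V) (S : Finset V) {v w : V} (hv : v ∉ S)
    (q : (del G S).Walk v w) : ∀ x ∈ q.support, x ∉ S := by
  induction q with
  | nil =>
    intro x hx
    simp only [SimpleGraph.Walk.support_nil, List.mem_singleton] at hx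
    rw [hx]
    exact hv
  | cons h q ih =>
    intro x hx
    rw [SimpleGraph.Walk.support_cons, List.mem_cons] at hx
    rcases hx with rfl | hx
    · exact hv
    · exact ih h.2.2 x hx

lemma exists_transfer (G : SimpleGraph V) (S : Finset V) {v w : V} (p : G.Walk v w)
    (h : ∀ x ∈ p.support, x ∉ S) :
    ∃ q : (del G S).Walk v w, q.support = p.support ∧ q.length = p.length := by
  have hh : ∀ e, e ∈ p.edges → e ∈ (del G S).edgeSet := by
    intro e he
    induction e with
    | _ a b =>
      rw [SimpleGraph.mem_edgeSet]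
      exact ⟨p.adj_of_mem_edges he, h a (p.fst_mem_support_of_mem_edges he),
        h b (p.snd_mem_support_of_mem_edges he)⟩
  exact ⟨p.transfer _ hh, by simp, by simp⟩

/-- inner vertices of a walk -/
def inner {H : SimpleGraph V} {v w : V} (q : H.Walk v w) : List V := q.support.tail.dropLast

lemma inner_length {H : SimpleGraph V} {v w : V} (q : H.Walk v w) :
    (inner q).length = q.length - 1 := by
  simp [inner]

lemma sum_support {H : SimpleGraph V} {v w : V} (q : H.Walk v w) (hvw : v ≠ w) (h : V → ℝ)
    (hv : h v = 0) (hw : h w = 0) : (q.support.map h).sum = ((inner q).map h).sum := by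
  cases q with
  | nil => exact absurd rfl hvw
  | cons hadj q =>
    have h1 : (inner (SimpleGraph.Walk.cons hadj q)) = q.support.dropLast := by
      simp [inner]
    rw [h1, SimpleGraph.Walk.support_cons, List.map_cons, List.sum_cons, hv, zero_add]
    have := wt_add h q
    rw [hw, add_zero] at this
    exact this

lemma mem_support_of_mem_inner {H : SimpleGraph V} {v w : V} (q : H.Walk v w) {x : V}
    (hx : x ∈ inner q) : x ∈ q.support :=
  List.mem_of_mem_tail (List.mem_of_mem_dropLast hx)

lemma hz_zero (N n : ℕ) (hn : N + 2 ≤ n) : hz N n 0 = 0 := by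
  unfold hz
  split_ifs with h
  · rfl
  · apply max_eq_left
    rw [not_le] at h
    have h1 : (N : ℝ) + 2 ≤ n := by exact_mod_cast hn
    have h2 : (n : ℝ) ≤ 2 * N := by
      have : n ≤ 2 * N := by omega
      exact_mod_cast this
    apply div_nonpos_of_nonpos_of_nonneg
    · linarith
    · apply mul_nonneg <;> linarith

lemma sv_zero (N d n : ℕ) (hn : N + 2 ≤ n) : sv N d n 0 = 1 := by
  unfold sv
  apply prod_eq_one
  intro j hj
  rw [hz_zero N j (le_trans hn (mem_Ico.1 hj).1), sub_zero]

variable [DecidableEq V] [Fintype V]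

lemma main_claim (G : SimpleGraph V) (v w : V) (hvw : v ≠ w) (N d : ℕ) (y : V → ℝ)
    (hy : ∀ x, 0 ≤ y x) (hyv : y v = 0) (hyw : y w = 0)
    (hcov : ∀ p : G.Walk v w, p.IsPath → p.length ≤ d → 1 ≤ (p.support.map y).sum) :
    ∀ k n : ℕ, n + k = d → N + 2 ≤ n → ∀ S : Finset V, v ∉ S → w ∉ S →
      (∀ x ∉ S, ((N : ℝ) + 1) * y x ≤ 1) → (∀ q : (del G S).Walk v w, n + 1 ≤ q.length) →
      ∃ K : Finset V, v ∉ K ∧ w ∉ K ∧ (∀ q : (del G (S ∪ K)).Walk v w, d + 1 ≤ q.length) ∧
        (K.card : ℝ) ≤ ∑ x ∈ Sᶜ, (1 - sv N d n (y x)) := by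
  intro k
  induction k with
  | zero =>
    intro n hn hN S hv hw hS hq
    refine ⟨∅, by simp, by simp, ?_, ?_⟩
    · intro q
      have := hq (q.mapLe (del_anti G (subset_union_left : S ⊆ S ∪ ∅)))
      rw [SimpleGraph.Walk.length_mapLe] at this
      omega
    · simp only [card_empty, Nat.cast_zero]
      apply sum_nonneg
      intro x hx
      have := sv_le_one N d n hN (y x) (hy x) (hS x (mem_compl.1 hx))
      linarith
  | succ k ih =>
    intro n hn hN S hv hw hS hq
    set f : V → ℝ := fun x => if x ∈ S then 0 else hz N n (y x) with hf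
    set g : V → ℝ := fun x => if x ∈ S then 0 else sv N d (n + 1) (y x) with hg
    have hf0 : ∀ x, 0 ≤ f x := by
      intro x
      simp only [hf]
      split_ifs
      · exact le_rfl
      · exact hz_nonneg N n _ (hy x)
    have hg0 : ∀ x, 0 ≤ g x := by
      intro x
      simp only [hg]
      split_ifs with h
      · exact le_rfl
      · exact sv_nonneg N d (n + 1) (by omega) _ (hy x) (hS x h)
    have hfv : f v = 0 := by simp [hf, hyv, hz_zero N n hN]
    have hfw : f w = 0 := by simp [hf, hyw, hz_zero N n hN]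
    obtain ⟨θ, hθ0, hθ1, hθ⟩ := exists_thr (del G S) hf0 v g hg0
    set K1 := thr (del G S) f v θ with hK1
    have hK1f : ∀ x ∈ K1, 0 < f x := by
      intro x hx
      obtain ⟨h1, h2⟩ := mem_thr.1 hx
      linarith
    have hK1S : ∀ x ∈ K1, x ∉ S := by
      intro x hx hxS
      have := hK1f x hx
      simp [hf, hxS] at this
    have hvK1 : v ∉ K1 := fun h => by
      have := hK1f v h
      rw [hfv] at this
      exact lt_irrefl _ this
    have hwK1 : w ∉ K1 := fun h => by
      have := hK1f w h
      rw [hfw] at this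
      exact lt_irrefl _ this
    -- the geodesics are covered by f
    have hcov' : ∀ q : (del G S).Walk v w, q.length = n + 1 → 1 ≤ (q.support.map f).sum := by
      intro q hql
      have hbp : q.bypass = q := by
        apply SimpleGraph.Walk.bypass_eq_self_of_length_le_length_bypass
        rw [hql]
        exact hq _
      have hpath : q.IsPath := hbp ▸ q.bypass_isPath
      have hpath' : (q.mapLe (del_le G S)).IsPath := by
        rw [SimpleGraph.Walk.isPath_def, SimpleGraph.Walk.support_mapLe_eq_support]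
        exact hpath.support_nodup
      have h1 := hcov (q.mapLe (del_le G S)) hpath'
        (by rw [SimpleGraph.Walk.length_mapLe, hql]; omega)
      rw [SimpleGraph.Walk.support_mapLe_eq_support, sum_support q hvw y hyv hyw] at h1
      rw [sum_support q hvw f hfv hfw]
      have h2 := hz_feas N n hN ((inner q).map y)
        (by rw [List.length_map, inner_length, hql]; rfl) h1
      rw [List.map_map] at h2
      have h3 : (inner q).map f = (inner q).map (hz N n ∘ y) := by
        apply List.map_congr_left
        intro x hx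
        have h4 := notMem_of_mem_support G S hv q x (mem_support_of_mem_inner q hx)
        simp [hf, h4]
      rw [h3]
      exact h2
    have hSK : ∀ q : (del G (S ∪ K1)).Walk v w, n + 1 + 1 ≤ q.length := by
      intro q
      have hle := del_anti G (subset_union_left : S ⊆ S ∪ K1)
      have h1 := hq (q.mapLe hle)
      rw [SimpleGraph.Walk.length_mapLe] at h1
      by_contra hlt
      have hql : q.length = n + 1 := by omega
      obtain ⟨x, hx, hxs⟩ := thr_hits (del G S) hf0 hfw (n + 1) hq hcov' (q.mapLe hle)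
        (by rw [SimpleGraph.Walk.length_mapLe]; exact hql) hθ0 hθ1
      rw [SimpleGraph.Walk.support_mapLe_eq_support] at hxs
      exact notMem_of_mem_support G (S ∪ K1) (by simp [hv, hvK1]) q x hxs
        (mem_union_right _ hx)
    obtain ⟨K2, hvK2, hwK2, hlen, hcard⟩ := ih (n + 1) (by omega) (by omega) (S ∪ K1)
      (by simp [hv, hvK1]) (by simp [hw, hwK1])
      (fun x hx => hS x (fun h => hx (mem_union_left _ h))) hSK
    refine ⟨K1 ∪ K2, by simp [hvK1, hvK2], by simp [hwK1, hwK2], ?_, ?_⟩
    · rw [← union_assoc]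
      exact hlen
    · have hc1 : ((K1 ∪ K2).card : ℝ) ≤ (K1.card : ℝ) + K2.card := by
        exact_mod_cast card_union_le K1 K2
      have hsub : K1 ⊆ Sᶜ := fun x hx => mem_compl.2 (hK1S x hx)
      have hsd : (S ∪ K1)ᶜ = Sᶜ \ K1 := by
        ext x
        simp
      have h1 : ∑ x ∈ Sᶜ, (1 - sv N d (n + 1) (y x)) =
          ∑ x ∈ (S ∪ K1)ᶜ, (1 - sv N d (n + 1) (y x)) +
            ∑ x ∈ K1, (1 - sv N d (n + 1) (y x)) := by
        rw [hsd, sum_sdiff hsub]
      have h2 : ∑ x ∈ K1, (1 - sv N d (n + 1) (y x)) = (K1.card : ℝ) - ∑ x ∈ K1, g x := by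
        rw [sum_sub_distrib]
        simp only [sum_const, nsmul_eq_mul, mul_one]
        congr 1
        apply sum_congr rfl
        intro x hx
        simp [hg, hK1S x hx]
      have h3 : ∑ x, f x * g x = ∑ x ∈ Sᶜ, hz N n (y x) * sv N d (n + 1) (y x) := by
        rw [← sum_subset (subset_univ Sᶜ)]
        · apply sum_congr rfl
          intro x hx
          have := mem_compl.1 hx
          simp [hf, hg, this]
        · intro x _ hx
          have : x ∈ S := by
            by_contra h
            exact hx (mem_compl.2 h)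
          simp [hf, this]
      have h4 : ∑ x ∈ Sᶜ, (1 - sv N d n (y x)) = ∑ x ∈ Sᶜ, (1 - sv N d (n + 1) (y x)) +
          ∑ x ∈ Sᶜ, hz N n (y x) * sv N d (n + 1) (y x) := by
        rw [← sum_add_distrib]
        apply sum_congr rfl
        intro x _
        rw [sv_succ N d n (by omega)]
        ring
      rw [h4]
      linarith

/-- rounding a fractional cover -/
theorem cover_bound (G : SimpleGraph V) (v w : V) (hvw : v ≠ w) (N d : ℕ) (hd : d ≤ 3 * N + 2)
    (y : V → ℝ) (hy : ∀ x, 0 ≤ y x) (hyv : y v = 0) (hyw : y w = 0)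
    (hcov : ∀ p : G.Walk v w, p.IsPath → p.length ≤ d → 1 ≤ (p.support.map y).sum) :
    ∃ S : Finset V, v ∉ S ∧ w ∉ S ∧
      (∀ p : G.Walk v w, p.IsPath → p.length ≤ d → ∃ x ∈ S, x ∈ p.support) ∧
      (S.card : ℝ) ≤ ((N : ℝ) + 1) * ∑ x, y x := by
  classical
  have hN1 : (0 : ℝ) < (N : ℝ) + 1 := by positivity
  set S0 : Finset V := univ.filter fun x => 1 ≤ ((N : ℝ) + 1) * y x with hS0
  have hv0 : v ∉ S0 := by simp [hS0, hyv]
  have hw0 : w ∉ S0 := by simp [hS0, hyw]
  have hlt : ∀ x ∉ S0, ((N : ℝ) + 1) * y x < 1 := by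
    intro x hx
    by_contra h
    exact hx (by simp [hS0, not_lt.1 h])
  have hle : ∀ x ∉ S0, ((N : ℝ) + 1) * y x ≤ 1 := fun x hx => (hlt x hx).le
  -- lengths of the walks avoiding S0
  have hlen0 : ∀ q : (del G S0).Walk v w, min (N + 2) d + 1 ≤ q.length := by
    intro q
    refine le_trans ?_ q.length_bypass_le_length
    set q' := q.bypass with hq'
    by_cases hqd : q'.length ≤ d
    · have hpath' : (q'.mapLe (del_le G S0)).IsPath := by
        rw [SimpleGraph.Walk.isPath_def, SimpleGraph.Walk.support_mapLe_eq_support]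
        exact q.bypass_isPath.support_nodup
      have h1 := hcov (q'.mapLe (del_le G S0)) hpath'
        (by rw [SimpleGraph.Walk.length_mapLe]; exact hqd)
      rw [SimpleGraph.Walk.support_mapLe_eq_support, sum_support q' hvw y hyv hyw] at h1
      have hkey : ∀ l : List V, l ≠ [] → (∀ x ∈ l, x ∉ S0) →
          ((N : ℝ) + 1) * (l.map y).sum < l.length := by
        intro l
        induction l with
        | nil => intro h; exact absurd rfl h
        | cons a l ih =>
          intro _ hl
          rw [List.map_cons, List.sum_cons, List.length_cons, mul_add]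
          have ha := hlt a (hl a List.mem_cons_self)
          rcases eq_or_ne l [] with rfl | hne
          · simp only [List.map_nil, List.sum_nil, mul_zero, add_zero, List.length_nil]
            simpa using ha
          · have := ih hne (fun x hx => hl x (List.mem_cons_of_mem _ hx))
            push_cast
            linarith
      have hne : inner q' ≠ [] := by
        intro h
        rw [h] at h1
        simp at h1
        linarith
      have h2 := hkey (inner q') hne (fun x hx =>
        notMem_of_mem_support G S0 hv0 q' x (mem_support_of_mem_inner q' hx))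
      have h3 : ((N : ℝ) + 1) < (inner q').length := by nlinarith
      have h4 : N + 1 < (inner q').length := by exact_mod_cast h3
      rw [inner_length] at h4
      omega
    · omega
  have hfin : ∀ K : Finset V, v ∉ K → w ∉ K →
      (∀ q : (del G (S0 ∪ K)).Walk v w, d + 1 ≤ q.length) →
      ∀ p : G.Walk v w, p.IsPath → p.length ≤ d → ∃ x ∈ S0 ∪ K, x ∈ p.support := by
    intro K _ _ hK p _ hpl
    by_contra hcon
    obtain ⟨q, _, hql⟩ := exists_transfer G (S0 ∪ K) p (fun x hx hxS => hcon ⟨x, hxS, hx⟩)
    have := hK q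
    omega
  have hS0card : (S0.card : ℝ) ≤ ∑ x ∈ S0, ((N : ℝ) + 1) * y x := by
    have : (S0.card : ℝ) = ∑ x ∈ S0, (1 : ℝ) := by simp
    rw [this]
    apply sum_le_sum
    intro x hx
    exact (mem_filter.1 hx).2
  have hsplit : ((N : ℝ) + 1) * ∑ x, y x =
      ∑ x ∈ S0, ((N : ℝ) + 1) * y x + ∑ x ∈ S0ᶜ, ((N : ℝ) + 1) * y x := by
    rw [sum_add_sum_compl, mul_sum]
  have hnn : 0 ≤ ∑ x ∈ S0ᶜ, ((N : ℝ) + 1) * y x :=
    sum_nonneg fun x _ => mul_nonneg hN1.le (hy x)
  rcases le_or_gt d (N + 2) with hdN | hdN
  · refine ⟨S0 ∪ ∅, by simpa using hv0, by simpa using hw0, hfin ∅ (by simp) (by simp) ?_, ?_⟩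
    · intro q
      have := hlen0 (q.mapLe (del_anti G (subset_union_left : S0 ⊆ S0 ∪ ∅)))
      rw [min_eq_right hdN, SimpleGraph.Walk.length_mapLe] at this
      exact this
    · rw [union_empty, hsplit]
      linarith
  · obtain ⟨K, hvK, hwK, hK, hKc⟩ := main_claim G v w hvw N d y hy hyv hyw hcov
      (d - (N + 2)) (N + 2) (by omega) le_rfl S0 hv0 hw0 hle (fun q => by
        have := hlen0 q
        rw [min_eq_left hdN.le] at this
        exact this)
    refine ⟨S0 ∪ K, by simp [hv0, hvK], by simp [hw0, hwK], hfin K hvK hwK hK, ?_⟩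
    have h1 : ((S0 ∪ K).card : ℝ) ≤ (S0.card : ℝ) + K.card := by
      exact_mod_cast card_union_le S0 K
    have h2 : ∑ x ∈ S0ᶜ, (1 - sv N d (N + 2) (y x)) ≤ ∑ x ∈ S0ᶜ, ((N : ℝ) + 1) * y x := by
      apply sum_le_sum
      intro x hx
      have := sv_ge N d hd (y x) (hy x) (hle x (mem_compl.1 hx))
      linarith
    rw [hsplit]
    linarith

end Pool.Agent.H76.FC
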