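import Mathlib
import Pool.Agent.H76.FC.Main
import Pool.Agent.H76.FC.Dual

/-! Chung's upper bound for separating versus packing short paths, with the packing number
replaced by its linear relaxation. -/

namespace Pool.Agent.H76.FC.FractionalPacking

open Finset

/-- For every finite graph, every pair of distinct non-adjacent vertices and every `d`: if every
fractional packing of paths with at most `d` edges has total weight at most `m`, then at most
`(⌊d/3⌋ + 1) * m` vertices meet all paths with at most `d` edges. -/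
theorem result {V : Type*} [Fintype V] [DecidableEq V] (G : SimpleGraph V) (d : ℕ) (v w : V)
    (hvw : v ≠ w) (hadj : ¬ G.Adj v w) (m : ℝ)
    (hpack : ∀ (k : ℕ) (f : Fin k → G.Walk v w) (c : Fin k → ℝ),
      (∀ i, (f i).IsPath ∧ (f i).length ≤ d ∧ 0 ≤ c i) →
      (∀ x, x ≠ v → x ≠ w → ∑ i with x ∈ (f i).support, c i ≤ 1) →
      ∑ i, c i ≤ m) :
    ∃ S : Finset V, v ∉ S ∧ w ∉ S ∧
      (∀ p : G.Walk v w, p.IsPath → p.length ≤ d → ∃ x ∈ S, x ∈ p.support) ∧
      (S.card : ℝ) ≤ (((d / 3 : ℕ) : ℝ) + 1) * m := by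
  classical
  -- the hypergraph of inner vertex sets of short paths
  let inn : G.Walk v w → Finset V := fun p => (p.support.toFinset.erase v).erase w
  have hinn : ∀ (p : G.Walk v w) x, x ∈ inn p ↔ x ≠ w ∧ x ≠ v ∧ x ∈ p.support := by
    intro p x
    simp [inn]
  let 𝒜 : Finset (Finset V) :=
    univ.filter fun A => ∃ p : G.Walk v w, p.IsPath ∧ p.length ≤ d ∧ inn p = A
  have h𝒜 : ∀ A, A ∈ 𝒜 ↔ ∃ p : G.Walk v w, p.IsPath ∧ p.length ≤ d ∧ inn p = A := by
    intro A
    simp [𝒜]
  have hne : ∀ A ∈ 𝒜, A.Nonempty := by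
    intro A hA
    obtain ⟨p, hp, -, rfl⟩ := (h𝒜 A).1 hA
    cases p with
    | nil => exact absurd rfl hvw
    | @cons _ u _ h q =>
      refine ⟨u, (hinn _ _).2 ⟨?_, ?_, ?_⟩⟩
      · rintro rfl
        exact hadj h
      · exact h.ne'
      · simp
  obtain ⟨c, y, hc, hy, hcov, hpk, hsum⟩ := Pool.Agent.H76.FC.exists_dual 𝒜 hne
  -- the total weight is at most m
  have hm : ∑ x, y x ≤ m := by
    rw [← hsum]
    have hchoose : ∀ A : 𝒜, ∃ p : G.Walk v w, p.IsPath ∧ p.length ≤ d ∧ inn p = A :=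
      fun A => (h𝒜 A).1 A.2
    choose F hF1 hF2 hF3 using hchoose
    let e : 𝒜 ≃ Fin 𝒜.card := 𝒜.equivFin
    have h := hpack 𝒜.card (fun i => F (e.symm i)) (fun i => c (e.symm i))
      (fun i => ⟨hF1 _, hF2 _, hc _⟩) ?_
    · have h2 : ∑ i : Fin 𝒜.card, c (e.symm i : Finset V) = ∑ A ∈ 𝒜, c A := by
        rw [← sum_coe_sort 𝒜]
        exact Equiv.sum_comp e.symm (fun A : 𝒜 => c (A : Finset V))
      rw [← h2]
      exact h
    · intro x hxv hxw
      refine le_trans (le_of_eq ?_) (hpk x)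
      rw [sum_filter, sum_filter, ← sum_coe_sort 𝒜,
        ← Equiv.sum_comp e.symm (fun A : 𝒜 => if x ∈ (A : Finset V) then c (A : Finset V) else 0)]
      refine sum_congr rfl fun i _ => ?_
      have : x ∈ (F (e.symm i)).support ↔ x ∈ ((e.symm i : 𝒜) : Finset V) := by
        rw [← hF3 (e.symm i), hinn]
        simp [hxv, hxw]
      simp only [this]
  -- remove the weights of the end points
  let y' : V → ℝ := fun x => if x = v ∨ x = w then 0 else y x
  have hy' : ∀ x, 0 ≤ y' x := by
    intro x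
    simp only [y']
    split_ifs
    · exact le_rfl
    · exact hy x
  have hy'v : y' v = 0 := by simp [y']
  have hy'w : y' w = 0 := by simp [y']
  have hle : ∀ x, y' x ≤ y x := by
    intro x
    simp only [y']
    split_ifs
    · exact hy x
    · exact le_rfl
  obtain ⟨S, hvS, hwS, hS, hcard⟩ := Pool.Agent.H76.FC.cover_bound G v w hvw (d / 3) d
    (by omega) y' hy' hy'v hy'w (by
      intro p hp hpl
      have h1 := hcov (inn p) ((h𝒜 _).2 ⟨p, hp, hpl, rfl⟩)
      have h2 : ∑ x ∈ inn p, y x = ∑ x ∈ inn p, y' x := by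
        refine sum_congr rfl fun x hx => ?_
        have := (hinn p x).1 hx
        simp [y', this.1, this.2.1]
      have h3 : (p.support.map y').sum = ∑ x ∈ p.support.toFinset, y' x := by
        rw [List.sum_toFinset _ hp.support_nodup]
      rw [h3]
      rw [h2] at h1
      refine h1.trans (sum_le_sum_of_subset_of_nonneg ?_ fun x _ _ => hy' x)
      intro x hx
      exact List.mem_toFinset.2 ((hinn p x).1 hx).2.2)
  refine ⟨S, hvS, hwS, hS, hcard.trans ?_⟩
  have hnn : (0 : ℝ) ≤ ((d / 3 : ℕ) : ℝ) + 1 := by positivity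
  refine mul_le_mul_of_nonneg_left ?_ hnn
  exact (sum_le_sum fun x _ => hle x).trans hm

end Pool.Agent.H76.FC.FractionalPacking
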